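import Mathlib

open ComplexConjugate

namespace Pool.Agent.Work.MP_201fbb_nt

/-- The polynomial quantity whose nonnegativity makes the invariant region work. -/
def F (κ x τ : ℝ) : ℝ :=
  2 * κ * (κ - 1) * x - (2 * κ ^ 2 * τ - 2 * κ * τ ^ 2 + τ ^ 4 - 2 * τ ^ 3 + 2 * τ ^ 2)

/-- The invariant: the ratio `b / a` lies in one of two mutually inverse disks. -/
def Inv (t : ℂ) (κ : ℝ) (a b : ℂ) : Prop :=
  ‖t * b - κ * a‖ ^ 2 ≤ (κ ^ 2 - ‖t‖ ^ 2) * ‖a‖ ^ 2 ∨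
  ‖conj t * b - κ * a‖ ^ 2 ≤ (κ ^ 2 - ‖t‖ ^ 2) * ‖a‖ ^ 2

theorem norm_sq_eq (z : ℂ) : ‖z‖ ^ 2 = z.re ^ 2 + z.im ^ 2 := by
  rw [← Complex.normSq_eq_norm_sq, Complex.normSq_apply]; ring

/-- Real form of the invariant. -/
theorem inv_iff (t : ℂ) (κ : ℝ) (a b : ℂ) : Inv t κ a b ↔
    (‖t‖ ^ 2 * (‖a‖ ^ 2 + ‖b‖ ^ 2) ≤ 2 * κ * (t * b * conj a).re ∨
     ‖t‖ ^ 2 * (‖a‖ ^ 2 + ‖b‖ ^ 2) ≤ 2 * κ * (conj t * b * conj a).re) := by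
  unfold Inv
  simp only [norm_sq_eq, Complex.sub_re, Complex.sub_im, Complex.mul_re, Complex.mul_im,
    Complex.conj_re, Complex.conj_im, Complex.ofReal_re, Complex.ofReal_im]
  constructor
  · rintro (h | h)
    · left; nlinarith [h]
    · right; nlinarith [h]
  · rintro (h | h)
    · left; nlinarith [h]
    · right; nlinarith [h]

theorem inv_symm {t : ℂ} {κ : ℝ} {a b : ℂ} (h : Inv t κ a b) : Inv t κ b a := by
  rw [inv_iff] at h ⊢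
  simp only [norm_sq_eq, Complex.mul_re, Complex.mul_im,
    Complex.conj_re, Complex.conj_im] at h ⊢
  rcases h with h | h
  · right; linarith
  · left; linarith

/-- The triangle inequality step. -/
theorem big_disk {t : ℂ} {κ : ℝ} (ht : 1 < ‖t‖) (hκ : ‖t‖ ≤ κ) (hF : 0 ≤ F κ t.re ‖t‖)
    {a b : ℂ} (h : Inv t κ a b) :
    ‖b - (κ - 1) * a‖ ^ 2 ≤ (κ ^ 2 - ‖t‖ ^ 2) * ‖a‖ ^ 2 := by
  have hρ : 0 ≤ κ ^ 2 - ‖t‖ ^ 2 := by nlinarith [norm_nonneg t]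
  obtain ⟨ρ, hρ0, hρ2⟩ : ∃ ρ : ℝ, 0 ≤ ρ ∧ ρ ^ 2 = κ ^ 2 - ‖t‖ ^ 2 :=
    ⟨Real.sqrt (κ ^ 2 - ‖t‖ ^ 2), Real.sqrt_nonneg _, Real.sq_sqrt hρ⟩
  have hsq : ∀ u v : ℝ, 0 ≤ v → u ^ 2 ≤ v ^ 2 → u ≤ v := by
    intro u v hv h
    exact le_trans (le_abs_self u) (abs_le_of_sq_le_sq h hv)
  -- distance between centers
  have hc : ‖(κ : ℂ) - (κ - 1) * t‖ ≤ (‖t‖ - 1) * ρ := by
    apply hsq _ _ (mul_nonneg (by linarith) hρ0)
    rw [mul_pow, hρ2]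
    have e : ‖(κ : ℂ) - (κ - 1) * t‖ ^ 2
        = κ ^ 2 - 2 * κ * (κ - 1) * t.re + (κ - 1) ^ 2 * ‖t‖ ^ 2 := by
      simp only [norm_sq_eq, Complex.sub_re, Complex.sub_im, Complex.mul_re, Complex.mul_im,
        Complex.ofReal_re, Complex.ofReal_im, Complex.one_re, Complex.one_im]
      ring
    rw [e]
    unfold F at hF
    nlinarith [hF]
  have hc' : ‖(κ : ℂ) - (κ - 1) * conj t‖ ≤ (‖t‖ - 1) * ρ := by
    have : (κ : ℂ) - (κ - 1) * conj t = conj ((κ : ℂ) - (κ - 1) * t) := by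
      simp
    rw [this, Complex.norm_conj]
    exact hc
  have main : ∀ s : ℂ, ‖s‖ = ‖t‖ → ‖(κ : ℂ) - (κ - 1) * s‖ ≤ (‖t‖ - 1) * ρ →
      ‖s * b - κ * a‖ ^ 2 ≤ (κ ^ 2 - ‖t‖ ^ 2) * ‖a‖ ^ 2 →
      ‖b - (κ - 1) * a‖ ^ 2 ≤ (κ ^ 2 - ‖t‖ ^ 2) * ‖a‖ ^ 2 := by
    intro s hs hcs h
    rw [← hρ2, ← mul_pow] at h ⊢
    have h1 : ‖s * b - κ * a‖ ≤ ρ * ‖a‖ := hsq _ _ (mul_nonneg hρ0 (norm_nonneg _)) h
    have h2 : ‖s * (b - (κ - 1) * a)‖ ≤ ‖t‖ * (ρ * ‖a‖) := by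
      have e : s * (b - (κ - 1) * a) = (s * b - κ * a) + ((κ : ℂ) - (κ - 1) * s) * a := by ring
      rw [e]
      calc ‖(s * b - κ * a) + ((κ : ℂ) - (κ - 1) * s) * a‖
          ≤ ‖s * b - κ * a‖ + ‖((κ : ℂ) - (κ - 1) * s) * a‖ := norm_add_le _ _
        _ = ‖s * b - κ * a‖ + ‖(κ : ℂ) - (κ - 1) * s‖ * ‖a‖ := by rw [norm_mul]
        _ ≤ ρ * ‖a‖ + ((‖t‖ - 1) * ρ) * ‖a‖ := by
            gcongr
        _ = ‖t‖ * (ρ * ‖a‖) := by ring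
    rw [norm_mul, hs] at h2
    have h3 : ‖b - (κ - 1) * a‖ ≤ ρ * ‖a‖ := le_of_mul_le_mul_left h2 (by linarith)
    exact pow_le_pow_left₀ (norm_nonneg _) h3 2
  rcases h with h | h
  · exact main t rfl hc h
  · exact main (conj t) (Complex.norm_conj t) hc' h

/-- `G`: real form of the big disk. -/
theorem big_disk' {t : ℂ} {κ : ℝ} (ht : 1 < ‖t‖) (hκ : ‖t‖ ≤ κ) (hF : 0 ≤ F κ t.re ‖t‖)
    {a b : ℂ} (h : Inv t κ a b) :
    (‖t‖ ^ 2 + 1 - 2 * κ) * ‖a‖ ^ 2 + ‖b‖ ^ 2 ≤ 2 * (κ - 1) * (b * conj a).re := by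
  have := big_disk ht hκ hF h
  simp only [norm_sq_eq a, norm_sq_eq b, norm_sq_eq (b - (κ - 1) * a), Complex.sub_re,
    Complex.sub_im, Complex.mul_re, Complex.mul_im, Complex.conj_re, Complex.conj_im,
    Complex.ofReal_re, Complex.ofReal_im, Complex.one_re, Complex.one_im] at this ⊢
  nlinarith [this]

theorem step_even {t : ℂ} {κ : ℝ} (ht : 1 < ‖t‖) (hκ : ‖t‖ ≤ κ) (hF : 0 ≤ F κ t.re ‖t‖)
    {a b : ℂ} (h : Inv t κ a b) : Inv t κ (t * a) (a + b) := by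
  have hG := big_disk' ht hκ hF h
  rw [inv_iff]
  left
  have hT : 0 ≤ ‖t‖ ^ 2 := sq_nonneg _
  have e1 : (t * (a + b) * conj (t * a)).re = ‖t‖ ^ 2 * (‖a‖ ^ 2 + (b * conj a).re) := by
    simp only [norm_sq_eq, map_mul, Complex.mul_re, Complex.mul_im, Complex.conj_re,
      Complex.conj_im, Complex.add_re, Complex.add_im]
    ring
  have e2 : ‖t * a‖ ^ 2 = ‖t‖ ^ 2 * ‖a‖ ^ 2 := by rw [norm_mul, mul_pow]
  have e3 : ‖a + b‖ ^ 2 = ‖a‖ ^ 2 + ‖b‖ ^ 2 + 2 * (b * conj a).re := by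
    simp only [norm_sq_eq, Complex.mul_re, Complex.conj_re,
      Complex.conj_im, Complex.add_re, Complex.add_im]
    ring
  rw [e1, e2, e3]
  nlinarith [mul_le_mul_of_nonneg_left hG hT]

theorem step_odd {t : ℂ} {κ : ℝ} (ht : 1 < ‖t‖) (hκ : ‖t‖ ≤ κ) (hF : 0 ≤ F κ t.re ‖t‖)
    {a b : ℂ} (h : Inv t κ a b) : Inv t κ (a + b) (t * b) := by
  have := step_even ht hκ hF (inv_symm h)
  have := inv_symm this
  rwa [add_comm b a] at this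

theorem add_ne_zero {t : ℂ} {κ : ℝ} (ht : 1 < ‖t‖) (hκ : ‖t‖ ≤ κ) (hF : 0 ≤ F κ t.re ‖t‖)
    {a b : ℂ} (h : Inv t κ a b) (ha : a ≠ 0) : a + b ≠ 0 := by
  intro hab
  have hG := big_disk' ht hκ hF h
  have hb : b = -a := by linear_combination hab
  subst hb
  have e : (-a * conj a).re = -‖a‖ ^ 2 := by
    simp only [norm_sq_eq, Complex.mul_re, Complex.conj_re, Complex.conj_im, Complex.neg_re,
      Complex.neg_im]
    ring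
  rw [e, norm_neg] at hG
  have h1 : 0 < ‖a‖ ^ 2 := by positivity
  have h2 : 0 < ‖t‖ ^ 2 := by positivity
  nlinarith [mul_pos h1 h2]

theorem inv_base {t : ℂ} {κ : ℝ} (hκ : ‖t‖ ^ 2 + 1 ≤ 2 * κ) : Inv t κ 1 t := by
  rw [inv_iff]
  right
  have e : (conj t * t * conj 1).re = ‖t‖ ^ 2 := by
    simp only [norm_sq_eq, Complex.mul_re, Complex.mul_im, Complex.conj_re, Complex.conj_im,
      Complex.one_re, Complex.one_im]
    ring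
  rw [e, norm_one]
  have h2 : 0 ≤ ‖t‖ ^ 2 := by positivity
  nlinarith [mul_le_mul_of_nonneg_left hκ h2]

/-- Nonvanishing of any sequence satisfying the Stern recursion at `t`. -/
theorem seq_ne_zero {t : ℂ} {κ : ℝ} (ht : 1 < ‖t‖) (hκ : ‖t‖ ≤ κ) (hκ2 : ‖t‖ ^ 2 + 1 ≤ 2 * κ)
    (hF : 0 ≤ F κ t.re ‖t‖) (B : ℕ → ℂ) (h1 : B 1 = 1)
    (he : ∀ n, 1 ≤ n → B (2 * n) = t * B n)
    (ho : ∀ n, 1 ≤ n → B (2 * n + 1) = B n + B (n + 1)) :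
    ∀ n, 1 ≤ n → B n ≠ 0 ∧ Inv t κ (B n) (B (n + 1)) := by
  intro n
  induction n using Nat.strong_induction_on with
  | _ n ih =>
    intro hn
    have ht0 : t ≠ 0 := by
      intro h; rw [h, norm_zero] at ht; linarith
    rcases Nat.even_or_odd' n with ⟨m, rfl | rfl⟩
    · have hm : 1 ≤ m := by omega
      obtain ⟨i1, i2⟩ := ih m (by omega) hm
      rw [he m hm, ho m hm]
      exact ⟨mul_ne_zero ht0 i1, step_even ht hκ hF i2⟩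
    · rcases Nat.eq_zero_or_pos m with rfl | hm
      · have h2 : B 2 = t := by
          have := he 1 le_rfl
          simpa [h1] using this
        simp only [Nat.mul_zero, Nat.zero_add, Nat.reduceAdd]
        rw [h1, h2]
        exact ⟨one_ne_zero, inv_base hκ2⟩
      · obtain ⟨i1, i2⟩ := ih m (by omega) hm
        have e : 2 * m + 1 + 1 = 2 * (m + 1) := by ring
        rw [e, ho m hm, he (m + 1) (by omega)]
        exact ⟨add_ne_zero ht hκ hF i2 i1, step_odd ht hκ hF i2⟩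

theorem region {x τ : ℝ} (hτ : 0 ≤ τ) (hx : x ≤ τ)
    (hQ : (τ ^ 2 - 4 * x + 4) ^ 2 ≤ τ ^ 2 - 2 * x + 1) :
    ∃ κ : ℝ, 1 < τ ∧ τ ≤ κ ∧ τ ^ 2 + 1 ≤ 2 * κ ∧ 0 ≤ F κ x τ := by
  have h1 : 1.38 ≤ τ := by
    by_contra hlt
    push Not at hlt
    nlinarith [sq_nonneg (τ ^ 2 - 4 * x + 4 - 0.382)]
  have h2 : τ ≤ 3.62 := by
    by_contra hlt
    push Not at hlt
    nlinarith [sq_nonneg (τ ^ 2 - 4 * x + 4 - 2.618)]
  rcases le_total τ 2 with h3 | h3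
  · refine ⟨3, by linarith, by linarith, by nlinarith, ?_⟩
    unfold F
    have hW : 0 ≤ 11.6875 + 6.1 * τ ^ 2 - 18 * τ + 2 * τ ^ 3 - τ ^ 4 := by
      nlinarith [mul_nonneg (sub_nonneg.2 h1) (sub_nonneg.2 h3), mul_nonneg (mul_nonneg (sub_nonneg.2 h1) (sub_nonneg.2 h3)) (sq_nonneg τ), mul_nonneg (mul_nonneg (sub_nonneg.2 h1) (sub_nonneg.2 h3)) hτ, sq_nonneg (τ - 3/2), sq_nonneg (τ ^ 2 - 2 * τ), mul_nonneg (sub_nonneg.2 h3) (sq_nonneg (τ - 3/2)), mul_nonneg (sub_nonneg.2 h1) (sq_nonneg (τ - 2))]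
    nlinarith [sq_nonneg (4 * x - τ ^ 2 - 4 + 13 / 12), hQ]
  · rcases le_total τ 2.6 with h4 | h4
    · refine ⟨4, by linarith, by linarith, by nlinarith, ?_⟩
      unfold F
      have hW : 0 ≤ 21 + 10.8 * τ ^ 2 - 32 * τ + 2 * τ ^ 3 - τ ^ 4 := by
        nlinarith [mul_nonneg (sub_nonneg.2 h3) (sub_nonneg.2 h4), mul_nonneg (mul_nonneg (sub_nonneg.2 h3) (sub_nonneg.2 h4)) (sq_nonneg τ), mul_nonneg (mul_nonneg (sub_nonneg.2 h3) (sub_nonneg.2 h4)) hτ]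
      nlinarith [sq_nonneg (4 * x - τ ^ 2 - 4 + 3 / 2), hQ]
    · refine ⟨8, by linarith, by linarith, by nlinarith, ?_⟩
      unfold F
      have hW : 0 ≤ 91.65 + 37.5 * τ ^ 2 - 128 * τ + 2 * τ ^ 3 - τ ^ 4 := by
        nlinarith [mul_nonneg (sub_nonneg.2 h4) (sub_nonneg.2 h2), mul_nonneg (mul_nonneg (sub_nonneg.2 h4) (sub_nonneg.2 h2)) (sq_nonneg τ), mul_nonneg (mul_nonneg (sub_nonneg.2 h4) (sub_nonneg.2 h2)) hτ]
      nlinarith [sq_nonneg (4 * x - τ ^ 2 - 4 + 65/36), hQ]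

/-- Any sequence satisfying the Stern recursion at `t` has no zero when `|t-2|^2 ≤ |t-1|`. -/
theorem seq_ne_zero_of_region {t : ℂ} (ht : ‖t - 2‖ ^ 2 ≤ ‖t - 1‖) (B : ℕ → ℂ) (h1 : B 1 = 1)
    (he : ∀ n, 1 ≤ n → B (2 * n) = t * B n)
    (ho : ∀ n, 1 ≤ n → B (2 * n + 1) = B n + B (n + 1)) (n : ℕ) (hn : 1 ≤ n) : B n ≠ 0 := by
  have e2 : ‖t - 2‖ ^ 2 = ‖t‖ ^ 2 - 4 * t.re + 4 := by
    simp only [norm_sq_eq, Complex.sub_re, Complex.sub_im, Complex.re_ofNat, Complex.im_ofNat]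
    ring
  have e1 : ‖t - 1‖ ^ 2 = ‖t‖ ^ 2 - 2 * t.re + 1 := by
    simp only [norm_sq_eq, Complex.sub_re, Complex.sub_im, Complex.one_re, Complex.one_im]
    ring
  have hQ : (‖t‖ ^ 2 - 4 * t.re + 4) ^ 2 ≤ ‖t‖ ^ 2 - 2 * t.re + 1 := by
    rw [← e1, ← e2]
    exact pow_le_pow_left₀ (by positivity) ht 2
  obtain ⟨κ, k1, k2, k3, k4⟩ := region (norm_nonneg t) (Complex.re_le_norm t) hQ
  exact (seq_ne_zero k1 k2 k3 k4 B h1 he ho n hn).1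

end Pool.Agent.Work.MP_201fbb_nt
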